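import Pool.Agent.R231.MS.K

/-!
MP_c85533: for every `n ≥ 4` the self-dual regular `(n-2)`-polytope `{2, ..., 2}` (for `n = 4` the
digon) is not isomorphic to a medial section of an internally self-dual regular `n`-polytope.
-/

set_option autoImplicit false

namespace Pool.Agent.Results.MP_c85533_co.NoDigon

open Set Pool.Agent.R231.MS

universe u

theorem result (n : ℕ) (hn : 4 ≤ n) :
    (IsPolytope (n - 2) (KK (n - 2)) KK.rkK ∧ Regular (KK (n - 2)) ∧ SelfDual (KK (n - 2))) ∧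
    (∀ (P : Type u) [PartialOrder P] [BoundedOrder P] (rk : P → ℕ), IsPolytope n P rk →
      IntSelfDual n P rk → ∀ v F : P, v ≤ F → rk v = 1 → rk F = n →
        IsEmpty (Icc v F ≃o KK (n - 2))) ∧
    (∀ (P : Type u) [PartialOrder P] [BoundedOrder P] (rk : P → ℕ), IsPolytope n P rk →
      IntSelfDual n P rk → ∀ v F : P, v ≤ F → rk v = 1 → rk F = n →
        ∃ x y : P, x ∈ Icc v F ∧ y ∈ Icc v F ∧ rk x = 2 ∧ rk y = 3 ∧ ¬ x < y) :=
  ⟨⟨KK.isPolytope (n - 2), KK.regular (n - 2), KK.selfDual (n - 2)⟩,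
    fun _ _ _ _ hP hI v F hvF hv hF => no_medial hn hP hI v F hvF hv hF,
    fun _ _ _ _ hP hI v F hvF hv hF => medial_not_two hn hP hI v F hvF hv hF⟩

end Pool.Agent.Results.MP_c85533_co.NoDigon
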